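import Mathlib
import Pool.Agent.H819R2.Period

/-!
# Donaldson's four-six question has a negative answer

There is a closed four-manifold `X = R^4 / Γ` (a mapping torus of solvable type) with a symplectic
form `ω` such that for all symplectic forms `σ`, `σ'` on the two-sphere the products
`(X × S^2, ω ⊕ σ)` and `(X × S^2, (-ω) ⊕ σ')` are not symplectically deformation equivalent.
-/

open scoped Manifold ContDiff
open Pool.Agent.H819R2 Pool.Agent.H819R2.FourSix

noncomputable section

namespace Pool.Agent.Results.MP_be134e_gt.FourSixFalse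

/-- The quotient `X = R^4 / Γ` with the form `ω`. -/
def manX : SymplecticManifold where
  E := E4
  H := E4
  I := 𝓡 4
  carrier := X4
  form := omX
  symplectic := omX_symplectic

/-- The quotient `X = R^4 / Γ` with the form `-ω`. -/
def manY : SymplecticManifold where
  E := E4
  H := E4
  I := 𝓡 4
  carrier := X4
  form := -omX
  symplectic := by
    have hneg : ((-1 : ℝ) • omX : TwoForm (𝓡 4) X4) = -omX := by
      funext x
      exact neg_one_smul ℝ w0
    rw [← hneg]
    exact omX_symplectic.smul (by norm_num)

/-- There are closed symplectic four-manifolds `X`, `Y` which are homeomorphic, and even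
diffeomorphic by a diffeomorphism pulling back the symplectic form of `Y` to minus that of `X`, such
that for all symplectic forms `σ`, `σ'` on the two-sphere the symplectic six-manifolds `X × S^2` and
`Y × S^2` (with the product forms) are not symplectically deformation equivalent. -/
theorem result :
    ∃ X Y : SymplecticManifold, X.IsClosedOfDim 4 ∧ Y.IsClosedOfDim 4 ∧
      Nonempty (X.carrier ≃ₜ Y.carrier) ∧ X.AntiIso Y ∧
      ∀ σ σ' : AreaForm, ¬ (X.prod σ.sphere).DefEquiv (Y.prod σ'.sphere) := by
  have hdim : Module.finrank ℝ E4 = 4 := by simp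
  refine ⟨manX, manY, ⟨?_, ?_, ?_, hdim⟩, ⟨?_, ?_, ?_, hdim⟩, ⟨Homeomorph.refl X4⟩,
    ⟨Diffeomorph.refl (𝓡 4) X4 ∞, ?_⟩, ?_⟩
  · exact (inferInstance : CompactSpace X4)
  · exact (inferInstance : ConnectedSpace X4)
  · exact (inferInstance : T2Space X4)
  · exact (inferInstance : CompactSpace X4)
  · exact (inferInstance : ConnectedSpace X4)
  · exact (inferInstance : T2Space X4)
  · intro x
    change (-w0 : E4 [⋀^Fin 2]→L[ℝ] ℝ).compContinuousLinearMap
      (show E4 →L[ℝ] E4 from mfderiv (𝓡 4) (𝓡 4) (id : X4 → X4) x) = -w0
    rw [mfderiv_id]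
    rfl
  · intro σ σ'
    exact not_deformation_equivalent σ.symplectic σ'.symplectic

end Pool.Agent.Results.MP_be134e_gt.FourSixFalse
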